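import Pool.Agent.H41.HYP.S2
import Pool.Agent.H70.HYP.NMU
import Pool.Agent.H37.AVS.LocB
import Pool.Agent.H65.AVS.Loc

/-!
# HYP, module UNR: the unramified extension `L[x]/(γ)`
-/

set_option autoImplicit false

namespace Pool.HYP

open Polynomial Matrix Pool.AVS

namespace UNR

section loc

variable {L : Type} [Field L] {O : ValuationSubring L} {π : L}

theorem res_pp (H : Loc L O π) : IsLocalRing.residue O (LocB.pp H) = 0 := by
  rw [IsLocalRing.residue_eq_zero_iff, IsLocalRing.mem_maximalIdeal]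
  exact (LocB.irr H).not_isUnit

theorem zpow_mem' (H : Loc L O π) {n : ℤ} (hn : 0 ≤ n) : π ^ n ∈ O := by
  lift n to ℕ using hn
  rw [zpow_natCast]
  exact pow_mem H.pi_mem n

/-- Every nonzero polynomial over `L` is a power of `π` times a primitive polynomial. -/
theorem scale (H : Loc L O π) (r : L[X]) (hr : r ≠ 0) :
    ∃ (n : ℤ) (p : O[X]), r = C (π ^ n) * oL O p ∧ rd O p ≠ 0 ∧ p.degree = r.degree := by
  have hpi := H.pi_ne
  choose! ν h1 h2 using H.arch
  obtain ⟨i₀, hi₀, hmin⟩ := r.support.exists_min_image (fun i => ν (r.coeff i))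
    (support_nonempty.2 hr)
  have hc : r.coeff i₀ ≠ 0 := mem_support_iff.1 hi₀
  have hn0 : π ^ ν (r.coeff i₀) ≠ 0 := zpow_ne_zero _ hpi
  have hO : ∀ i, (π ^ ν (r.coeff i₀))⁻¹ * r.coeff i ∈ O := by
    intro i
    by_cases h : r.coeff i = 0
    · rw [h, mul_zero]; exact O.zero_mem
    · have h3 := hmin i (mem_support_iff.2 h)
      have h4 := h1 _ h
      have h5 : (π ^ ν (r.coeff i₀))⁻¹ * r.coeff i =
          π ^ (ν (r.coeff i) - ν (r.coeff i₀)) * (r.coeff i / π ^ ν (r.coeff i)) := by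
        have hn1 : π ^ ν (r.coeff i) ≠ 0 := zpow_ne_zero _ hpi
        rw [zpow_sub₀ hpi]
        field_simp
      rw [h5]
      exact O.mul_mem _ _ (zpow_mem' H (by simpa using h3)) h4
  have hl : C ((π ^ ν (r.coeff i₀))⁻¹) * r ∈ lifts (algebraMap O L) := by
    rw [lifts_iff_coeff_lifts]
    intro i
    rw [coeff_C_mul]
    exact ⟨⟨_, hO i⟩, rfl⟩
  obtain ⟨p, hp⟩ := (mem_lifts _).1 hl
  have hr2 : r = C (π ^ ν (r.coeff i₀)) * oL O p := by
    rw [show oL O p = _ from hp, ← mul_assoc, ← C_mul, mul_inv_cancel₀ hn0, C_1, one_mul]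
  refine ⟨ν (r.coeff i₀), p, hr2, ?_, ?_⟩
  · intro h0
    have h6 : IsLocalRing.residue O (p.coeff i₀) = 0 := by
      rw [← coeff_map]
      exact (congrArg (fun q => q.coeff i₀) h0).trans (coeff_zero _)
    have h7 : algebraMap O L (p.coeff i₀) = r.coeff i₀ / π ^ ν (r.coeff i₀) := by
      rw [← coeff_map, hp, coeff_C_mul]
      field_simp
    have h8 : IsUnit (p.coeff i₀) := by
      refine IsUnit.of_mul_eq_one (⟨_, h2 _ hc⟩ : O) ?_
      apply Subtype.ext
      change algebraMap O L (p.coeff i₀) * (r.coeff i₀ / π ^ ν (r.coeff i₀))⁻¹ = 1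
      rw [h7]
      exact mul_inv_cancel₀ (div_ne_zero hc hn0)
    exact (h8.map (IsLocalRing.residue O)).ne_zero h6
  · have h9 : (oL O p).degree = p.degree := degree_map_eq_of_injective
      (IsFractionRing.injective O L) p
    rw [← h9]
    conv_rhs => rw [hr2]
    rw [degree_C_mul hn0]

/-- A primitive polynomial of degree less than `γ` is a unit modulo `γ`. -/
theorem cop (γ p : O[X]) (hγ : γ.Monic) (hi : Irreducible (rd O γ)) (hp : rd O p ≠ 0)
    (hd : p.degree < γ.degree) : IsCoprime (rd O p) (rd O γ) := by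
  refine IsCoprime.symm ((Irreducible.coprime_iff_not_dvd hi).2 fun h => ?_)
  have h1 := degree_le_of_dvd h hp
  have h2 : (rd O γ).degree = γ.degree := hγ.degree_map _
  rw [h2] at h1
  exact absurd (h1.trans degree_map_le) (not_le.2 hd)

theorem part1 (H : Loc L O π) (γ : O[X]) (hγ : γ.Monic) (hi : Irreducible (rd O γ)) (h : L[X])
    (hh : ¬ oL O γ ∣ h) : ∃ (n : ℤ) (p : O[X]), IsCoprime (rd O p) (rd O γ) ∧
      oL O γ ∣ h - C (π ^ n) * oL O p := by
  have hm : (oL O γ).Monic := hγ.map _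
  have hr : h %ₘ oL O γ ≠ 0 := fun h0 => hh ((modByMonic_eq_zero_iff_dvd hm).1 h0)
  obtain ⟨n, p, h1, h2, h3⟩ := scale H _ hr
  refine ⟨n, p, cop γ p hγ hi h2 ?_, ?_⟩
  · rw [h3]
    have h4 := degree_modByMonic_lt h hm
    rwa [show (oL O γ).degree = γ.degree from hγ.degree_map _] at h4
  · rw [← h1]
    refine ⟨h /ₘ oL O γ, ?_⟩
    have h5 := modByMonic_add_div h (oL O γ)
    linear_combination -h5

theorem part2a (H : Loc L O π) (γ : O[X]) (hγ : γ.Monic) (hi : Irreducible (rd O γ))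
    (n n' : ℤ) (p p' : O[X]) (hp : IsCoprime (rd O p) (rd O γ)) (hlt : n < n')
    (hd : oL O γ ∣ C (π ^ n) * oL O p - C (π ^ n') * oL O p') : False := by
  have hpi := H.pi_ne
  have hn0 : π ^ n ≠ 0 := zpow_ne_zero _ hpi
  obtain ⟨m, hm⟩ : ∃ m : ℕ, n' - n = m + 1 := ⟨(n' - n - 1).toNat, by omega⟩
  have h1 : oL O γ ∣ oL O (p - C (LocB.pp H ^ (m + 1)) * p') := by
    have h2 : oL O (p - C (LocB.pp H ^ (m + 1)) * p') =
        C ((π ^ n)⁻¹) * (C (π ^ n) * oL O p - C (π ^ n') * oL O p') := by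
      have h3 : algebraMap O L (LocB.pp H ^ (m + 1)) = π ^ (n' - n) := by
        rw [map_pow, hm]
        change π ^ (m + 1) = _
        rw [← zpow_natCast]
        push_cast
        rfl
      rw [oL, Polynomial.map_sub, Polynomial.map_mul, map_C, h3, zpow_sub₀ hpi, mul_sub,
        ← mul_assoc, ← mul_assoc, ← C_mul, ← C_mul, inv_mul_cancel₀ hn0, C_1, one_mul,
        div_eq_inv_mul]
    rw [h2]
    exact Dvd.dvd.mul_left hd _
  have h4 : γ ∣ p - C (LocB.pp H ^ (m + 1)) * p' :=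
    (map_dvd_map (algebraMap O L) (IsFractionRing.injective O L) hγ).1 h1
  have h5 : rd O γ ∣ rd O p := by
    have h6 := Polynomial.map_dvd (IsLocalRing.residue O) h4
    rw [Polynomial.map_sub, Polynomial.map_mul, map_C, map_pow, res_pp, zero_pow (by omega),
      C_0, zero_mul, sub_zero] at h6
    exact h6
  exact ((Irreducible.coprime_iff_not_dvd hi).1 hp.symm) h5

theorem part2 (H : Loc L O π) (γ : O[X]) (hγ : γ.Monic) (hi : Irreducible (rd O γ))
    (n n' : ℤ) (p p' : O[X]) (hp : IsCoprime (rd O p) (rd O γ))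
    (hp' : IsCoprime (rd O p') (rd O γ))
    (hd : oL O γ ∣ C (π ^ n) * oL O p - C (π ^ n') * oL O p') : n = n' := by
  rcases lt_trichotomy n n' with h | h | h
  · exact (part2a H γ hγ hi n n' p p' hp h hd).elim
  · exact h
  · refine (part2a H γ hγ hi n' n p' p hp' h ?_).elim
    rw [← neg_sub]
    exact (dvd_neg).2 hd

theorem normL (γ p : O[X]) (hγ : γ.Monic) :
    Algebra.norm L (AdjoinRoot.mk (oL O γ) (oL O p)) =
      algebraMap O L (Algebra.norm O (AdjoinRoot.mk γ p)) :=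
  NMU.norm_map (algebraMap O L) γ p hγ

theorem normk (γ p : O[X]) (hγ : γ.Monic) :
    Algebra.norm (IsLocalRing.ResidueField O) (AdjoinRoot.mk (rd O γ) (rd O p)) =
      IsLocalRing.residue O (Algebra.norm O (AdjoinRoot.mk γ p)) :=
  NMU.norm_map (IsLocalRing.residue O) γ p hγ

end loc

/-- The norm is nonzero. -/
theorem norm_ne {k : Type} [Field k] (γ p : k[X]) (hγ : γ.Monic) (hi : Irreducible γ)
    (hp : IsCoprime p γ) : Algebra.norm k (AdjoinRoot.mk γ p) ≠ 0 := by
  have : Fact (Irreducible γ) := ⟨hi⟩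
  have : Module.Free k (AdjoinRoot γ) := Module.Free.of_basis (AdjoinRoot.powerBasis' hγ).basis
  have : Module.Finite k (AdjoinRoot γ) := (AdjoinRoot.powerBasis' hγ).finite
  rw [Algebra.norm_ne_zero_iff]
  intro h
  rw [AdjoinRoot.mk_eq_zero] at h
  exact ((Irreducible.coprime_iff_not_dvd hi).1 hp.symm) h

/-- Finite fields: an element whose norm is a square is a square. -/
theorem fin_sq {k : Type} [Field k] [Finite k] (h2 : (2 : k) ≠ 0) (γ p : k[X]) (hγ : γ.Monic)
    (hi : Irreducible γ) (hp : IsCoprime p γ)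
    (hs : IsSquare (Algebra.norm k (AdjoinRoot.mk γ p))) : ∃ s : k[X], γ ∣ p - s ^ 2 := by
  have hf : Fact (Irreducible γ) := ⟨hi⟩
  have : Module.Finite k (AdjoinRoot γ) := (AdjoinRoot.powerBasis' hγ).finite
  have hfin : Finite (AdjoinRoot γ) := Module.finite_of_finite k
  have := Fintype.ofFinite (AdjoinRoot γ)
  have := Fintype.ofFinite k
  have hx0 : AdjoinRoot.mk γ p ≠ 0 := by
    intro h
    rw [AdjoinRoot.mk_eq_zero] at h
    exact ((Irreducible.coprime_iff_not_dvd hi).1 hp.symm) h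
  have hn0 := norm_ne γ p hγ hi hp
  have hk2 : ringChar k ≠ 2 := fun h => h2 (by
    have := ringChar.spec k 2
    rw [h] at this
    exact_mod_cast this.2 dvd_rfl)
  have hK2' : (2 : AdjoinRoot γ) ≠ 0 := by
    have h := (map_ne_zero (algebraMap k (AdjoinRoot γ))).2 h2
    rwa [map_ofNat] at h
  have hK2 : ringChar (AdjoinRoot γ) ≠ 2 := fun h => hK2' (by
    have := ringChar.spec (AdjoinRoot γ) 2
    rw [h] at this
    exact_mod_cast this.2 dvd_rfl)
  have hsq : IsSquare (AdjoinRoot.mk γ p) := by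
    rw [FiniteField.isSquare_iff hK2 hx0]
    rw [FiniteField.isSquare_iff hk2 hn0] at hs
    have h3 : AdjoinRoot.mk γ p ^ ((Nat.card (AdjoinRoot γ) - 1) / (Nat.card k - 1) *
        (Fintype.card k / 2)) = 1 := by
      rw [pow_mul, ← FiniteField.algebraMap_norm_eq_pow, ← map_pow, hs, map_one]
    have h4 : Nat.card (AdjoinRoot γ) = Nat.card k ^ Module.finrank k (AdjoinRoot γ) :=
      Module.natCard_eq_pow_finrank
    have h5 : Nat.card k - 1 ∣ Nat.card (AdjoinRoot γ) - 1 := by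
      have h6 := Nat.sub_dvd_pow_sub_pow (Nat.card k) 1 (Module.finrank k (AdjoinRoot γ))
      rwa [one_pow, ← h4] at h6
    have h7 : Nat.card k % 2 = 1 := by
      rw [Nat.card_eq_fintype_card]
      exact FiniteField.odd_card_of_char_ne_two hk2
    have h8 : Nat.card (AdjoinRoot γ) % 2 = 1 := by
      rw [Nat.card_eq_fintype_card]
      exact FiniteField.odd_card_of_char_ne_two hK2
    have h9 : Fintype.card (AdjoinRoot γ) / 2 =
        (Nat.card (AdjoinRoot γ) - 1) / (Nat.card k - 1) * (Fintype.card k / 2) := by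
      rw [← Nat.card_eq_fintype_card, ← Nat.card_eq_fintype_card]
      obtain ⟨M, hM⟩ := h5
      have hq1 : 1 < Nat.card k := Finite.one_lt_card
      obtain ⟨t, ht⟩ : ∃ t, Nat.card k = 2 * t + 1 := ⟨Nat.card k / 2, by omega⟩
      obtain ⟨T, hT⟩ : ∃ T, Nat.card (AdjoinRoot γ) = 2 * T + 1 :=
        ⟨Nat.card (AdjoinRoot γ) / 2, by omega⟩
      rw [ht, hT] at hM ⊢
      have ht0 : 0 < t := by omega
      have e1 : 2 * T + 1 - 1 = 2 * T := by omega
      have e2 : 2 * t + 1 - 1 = 2 * t := by omega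
      have e3 : (2 * T + 1) / 2 = T := by omega
      have e4 : (2 * t + 1) / 2 = t := by omega
      rw [e1, e2] at hM
      rw [e1, e2, e3, e4, hM, Nat.mul_div_cancel_left _ (by omega)]
      have : 2 * T = 2 * (t * M) := by rw [hM, mul_assoc]
      have e5 : T = t * M := by omega
      rw [e5, mul_comm]
    rw [h9]
    exact h3
  obtain ⟨y, hy⟩ := hsq
  obtain ⟨s, rfl⟩ := AdjoinRoot.mk_surjective y
  refine ⟨s, ?_⟩
  rw [← AdjoinRoot.mk_eq_zero, map_sub, map_pow, hy, pow_two, sub_self]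

end UNR

theorem unr : UNRStmt := by
  intro L _ O π H γ hγ hi
  have hγ' : (rd O γ).Monic := hγ.map _
  refine ⟨fun h hh => UNR.part1 H γ hγ hi h hh,
    fun n n' p p' hp hp' hd => UNR.part2 H γ hγ hi n n' p p' hp hp' hd, ?_, ?_⟩
  · intro p hp
    rw [UNR.normL γ p hγ]
    have h1 := UNR.norm_ne _ _ hγ' hi hp
    rw [UNR.normk γ p hγ] at h1
    have h2 : IsUnit (Algebra.norm O (AdjoinRoot.mk γ p)) := by
      by_contra hc
      exact h1 ((IsLocalRing.residue_eq_zero_iff _).2 ((IsLocalRing.mem_maximalIdeal _).2 hc))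
    obtain ⟨u, hu⟩ := h2
    rw [← hu]
    have h3 : (algebraMap O L (u : O)) * (algebraMap O L ((u⁻¹ : Oˣ) : O)) = 1 := by
      rw [← map_mul, Units.mul_inv, map_one]
    refine ⟨left_ne_zero_of_mul_eq_one h3, (u : O).2, ?_⟩
    rw [inv_eq_of_mul_eq_one_right h3]
    exact ((u⁻¹ : Oˣ) : O).2
  · intro p hp hs
    rw [UNR.normL γ p hγ] at hs
    obtain ⟨y, hy⟩ := hs
    have hyO : y ∈ O := by
      apply DS.mem_of_sq
      rw [pow_two, ← hy]
      exact (Algebra.norm O (AdjoinRoot.mk γ p)).2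
    have h1 : Algebra.norm O (AdjoinRoot.mk γ p) = (⟨y, hyO⟩ : O) * ⟨y, hyO⟩ :=
      Subtype.ext hy
    have h2 : IsSquare (Algebra.norm (IsLocalRing.ResidueField O)
        (AdjoinRoot.mk (rd O γ) (rd O p))) := by
      rw [UNR.normk γ p hγ, h1, map_mul]
      exact ⟨_, rfl⟩
    have : Finite (IsLocalRing.ResidueField O) := H.fin
    have h3 : (2 : IsLocalRing.ResidueField O) ≠ 0 := by
      have h4 := ((LocB.two_unit H).map (IsLocalRing.residue O)).ne_zero
      rwa [map_ofNat] at h4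
    obtain ⟨s, hs⟩ := UNR.fin_sq h3 _ _ hγ' hi hp h2
    obtain ⟨s', rfl⟩ := Polynomial.map_surjective (IsLocalRing.residue O)
      IsLocalRing.residue_surjective s
    exact ⟨s', hs⟩

end Pool.HYP
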